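import Pool.Agent.H998.HK.Spec3

/-!
# Hohenberg-Kohn: task TWO2 (two potentials with one solution)
-/

set_option autoImplicit false

noncomputable section

namespace Pool.Agent.H825.HK

open MeasureTheory Filter Topology Set
open scoped ENNReal NNReal RealInnerProductSpace ComplexConjugate ContDiff
open Pool.Agent.H998.HK

theorem measurable_pot {n : ℕ} {v : E3 → ℝ} (hv : Measurable v) : Measurable (pot n v) := by
  have m : ∀ j : Fin n, Measurable fun z : Xn n => z.2 j :=
    fun j => (measurable_pi_apply j).comp measurable_snd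
  have m0 : Measurable fun z : Xn n => z.1 := measurable_fst
  unfold pot
  refine (((hv.comp m0).add ?_).add ?_).add ?_
  · refine Finset.measurable_sum _ fun j _ => ?_
    exact hv.comp (m j)
  · refine Finset.measurable_sum _ fun j _ => ?_
    refine measurable_const.div ?_
    exact (m0.sub (m j)).norm
  · refine Finset.measurable_sum _ fun j _ => Finset.measurable_sum _ fun k _ => ?_
    split_ifs
    · refine measurable_const.div ?_
      exact ((m j).sub (m k)).norm
    · exact measurable_const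

theorem integrable_pot {n : ℕ} {v : E3 → ℝ} (hFB : S_FB1) (hX : XStar v) (hv : Measurable v)
    {f : Xn n → ℂ} {Dx : Fin 3 → Xn n → ℂ} {Dy : Fin n → Fin 3 → Xn n → ℂ} (hf : H1 n f Dx Dy)
    {g : Xn n → ℂ} {Gx : Fin 3 → Xn n → ℂ} {Gy : Fin n → Fin 3 → Xn n → ℂ} (hg : H1 n g Gx Gy)
    (E : ℝ) : Integrable fun z => ((pot n v z - E : ℝ) : ℂ) * (conj (g z) * f z) := by
  have i1 := hFB n v hX hv f Dx Dy hf
  have i2 := hFB n v hX hv g Gx Gy hg
  have i3 : Integrable fun z => ‖f z‖ ^ 2 := hf.f2.integrable_norm_pow (by norm_num)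
  have i4 : Integrable fun z => ‖g z‖ ^ 2 := hg.f2.integrable_norm_pow (by norm_num)
  refine ((i1.add i2).add ((i3.add i4).const_mul |E|)).mono' ?_ ?_
  · refine AEStronglyMeasurable.mul ?_ ?_
    · exact (Complex.measurable_ofReal.comp
        ((measurable_pot hv).sub measurable_const)).aestronglyMeasurable
    · exact (Complex.continuous_conj.comp_aestronglyMeasurable hg.f2.1).mul hf.f2.1
  · refine Eventually.of_forall fun z => ?_
    rw [norm_mul, norm_mul, Complex.norm_real, RCLike.norm_conj, Real.norm_eq_abs]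
    simp only [Pi.add_apply]
    have h1 : |pot n v z - E| ≤ |pot n v z| + |E| := abs_sub _ _
    have h2 : ‖g z‖ * ‖f z‖ ≤ ‖f z‖ ^ 2 + ‖g z‖ ^ 2 := by
      nlinarith [sq_nonneg (‖g z‖ - ‖f z‖), sq_nonneg ‖g z‖, sq_nonneg ‖f z‖]
    calc |pot n v z - E| * (‖g z‖ * ‖f z‖) ≤ (|pot n v z| + |E|) * (‖f z‖ ^ 2 + ‖g z‖ ^ 2) :=
          mul_le_mul h1 h2 (by positivity) (by positivity)
      _ = _ := by ring

theorem integrable_conj_mul {n : ℕ} {F G : Xn n → ℂ} (hF : MemLp F 2) (hG : MemLp G 2) :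
    Integrable fun z => conj (G z) * F z := by
  have h : MemLp (fun z => conj (G z)) 2 := by
    refine ⟨Complex.continuous_conj.comp_aestronglyMeasurable hG.1, ?_⟩
    have e : eLpNorm (fun z => conj (G z)) 2 volume = eLpNorm G 2 volume :=
      eLpNorm_congr_norm_ae (Eventually.of_forall fun z => by simp)
    rw [e]; exact hG.2
  exact h.integrable_mul hF

theorem integrable_form {n : ℕ} {v : E3 → ℝ} (hFB : S_FB1) (hX : XStar v) (hv : Measurable v)
    {f : Xn n → ℂ} {Dx : Fin 3 → Xn n → ℂ} {Dy : Fin n → Fin 3 → Xn n → ℂ} (hf : H1 n f Dx Dy)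
    {g : Xn n → ℂ} {Gx : Fin 3 → Xn n → ℂ} {Gy : Fin n → Fin 3 → Xn n → ℂ} (hg : H1 n g Gx Gy)
    (E : ℝ) : Integrable (formInt n v E f Dx Dy g Gx Gy) := by
  unfold formInt
  refine Integrable.add ?_ (integrable_pot hFB hX hv hf hg E)
  refine Integrable.const_mul ?_ _
  refine Integrable.add ?_ ?_
  · exact integrable_finsetSum _ fun i _ => integrable_conj_mul (hf.x2 i) (hg.x2 i)
  · exact integrable_finsetSum _ fun j _ => integrable_finsetSum _ fun i _ =>
      integrable_conj_mul (hf.y2 j i) (hg.y2 j i)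

section test

variable {n : ℕ} {φ : Xn n → ℝ}

theorem memLp_test (hφ : Test φ) : MemLp (fun z => ((φ z : ℝ) : ℂ)) 2 := by
  refine Continuous.memLp_of_hasCompactSupport (Complex.continuous_ofReal.comp hφ.1.continuous) ?_
  exact hφ.2.comp_left (g := fun r : ℝ => (r : ℂ)) Complex.ofReal_zero

theorem memLp_test_deriv (hφ : Test φ) (e : Xn n) :
    MemLp (fun z => ((fderiv ℝ φ z e : ℝ) : ℂ)) 2 := by
  have hc : Continuous fun z => fderiv ℝ φ z e :=
    (hφ.1.continuous_fderiv (by simp)).clm_apply continuous_const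
  refine Continuous.memLp_of_hasCompactSupport (Complex.continuous_ofReal.comp hc) ?_
  have h1 : HasCompactSupport (fun z => fderiv ℝ φ z e) := hφ.2.fderiv_apply ℝ e
  exact h1.comp_left (g := fun r : ℝ => (r : ℂ)) Complex.ofReal_zero

theorem wd_test (hφ : Test φ) (e : Xn n) :
    WD e (fun z => ((φ z : ℝ) : ℂ)) (fun z => ((fderiv ℝ φ z e : ℝ) : ℂ)) := by
  intro ψ hψ
  have hc1 : Continuous fun z => fderiv ℝ φ z e :=
    (hφ.1.continuous_fderiv (by simp)).clm_apply continuous_const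
  have hc2 : Continuous fun z => fderiv ℝ ψ z e :=
    (hψ.1.continuous_fderiv (by simp)).clm_apply continuous_const
  have : (volume : Measure (Xn n)).IsAddHaarMeasure :=
    haveI : (volume : Measure (Yn n)).IsAddHaarMeasure :=
      Measure.pi.isAddHaarMeasure (fun _ => volume)
    Measure.prod.instIsAddHaarMeasure _ _
  have k := integral_mul_fderiv_eq_neg_fderiv_mul_of_integrable (μ := (volume : Measure (Xn n)))
    (f := ψ) (g := φ) (v := e) (𝕜 := ℝ)
    ((hc2.mul hφ.1.continuous).integrable_of_hasCompactSupport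
      ((hψ.2.fderiv_apply ℝ e).mul_right))
    ((hψ.1.continuous.mul hc1).integrable_of_hasCompactSupport hψ.2.mul_right)
    ((hψ.1.continuous.mul hφ.1.continuous).integrable_of_hasCompactSupport hψ.2.mul_right)
    (fun x _ => (hψ.1.differentiable (by simp)) x) (fun x _ => (hφ.1.differentiable (by simp)) x)
  have e1 : ∫ z, fderiv ℝ ψ z e • ((φ z : ℝ) : ℂ) = ((∫ z, fderiv ℝ ψ z e * φ z : ℝ) : ℂ) := by
    rw [← integral_complex_ofReal]
    refine integral_congr_ae (Eventually.of_forall fun z => ?_)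
    simp
  have e2 : ∫ z, ψ z • ((fderiv ℝ φ z e : ℝ) : ℂ) = ((∫ z, ψ z * fderiv ℝ φ z e : ℝ) : ℂ) := by
    rw [← integral_complex_ofReal]
    refine integral_congr_ae (Eventually.of_forall fun z => ?_)
    simp
  rw [e1, e2, k]
  push_cast
  ring

theorem h1_test (hφ : Test φ) : H1 n (fun z => ((φ z : ℝ) : ℂ))
    (fun i z => ((fderiv ℝ φ z (ex n i) : ℝ) : ℂ))
    (fun j i z => ((fderiv ℝ φ z (ey n j i) : ℝ) : ℂ)) :=
  ⟨memLp_test hφ, fun _ => memLp_test_deriv hφ _, fun _ _ => memLp_test_deriv hφ _,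
    fun _ => wd_test hφ _, fun _ _ => wd_test hφ _⟩

end test

theorem t_TWO2 : S_TWO2 := by
  intro hFB n v₁ v₂ E₁ E₂ f Dx Dy hX1 hX2 hv1 hv2 hf hw1 hw2
  set w : Xn n → ℝ := fun z =>
    (v₁ z.1 - v₂ z.1) + ∑ j, (v₁ (z.2 j) - v₂ (z.2 j)) - (E₁ - E₂) with hw
  have hwp : ∀ z, w z = (pot n v₁ z - E₁) - (pot n v₂ z - E₂) := by
    intro z
    simp only [hw, pot, Finset.sum_sub_distrib]
    ring
  have key : ∀ φ : Xn n → ℝ, Test φ →
      Integrable (fun z => φ z • (((w z : ℝ) : ℂ) * f z)) ∧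
        ∫ z, φ z • (((w z : ℝ) : ℂ) * f z) = 0 := by
    intro φ hφ
    have hg := h1_test hφ
    have e : ∀ z, φ z • (((w z : ℝ) : ℂ) * f z) =
        ((pot n v₁ z - E₁ : ℝ) : ℂ) * (conj ((φ z : ℝ) : ℂ) * f z) -
          ((pot n v₂ z - E₂ : ℝ) : ℂ) * (conj ((φ z : ℝ) : ℂ) * f z) := by
      intro z
      rw [hwp, Complex.conj_ofReal, Complex.real_smul]
      push_cast
      ring
    have i1 := integrable_pot hFB hX1 hv1 hf hg E₁
    have i2 := integrable_pot hFB hX2 hv2 hf hg E₂
    refine ⟨(i1.sub i2).congr (Eventually.of_forall fun z => (e z).symm), ?_⟩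
    have j1 := integrable_form hFB hX1 hv1 hf hg E₁
    have j2 := integrable_form hFB hX2 hv2 hf hg E₂
    have h1 := hw1 _ _ _ hg
    have h2 := hw2 _ _ _ hg
    have h3 : ∫ z, (formInt n v₁ E₁ f Dx Dy (fun z => ((φ z : ℝ) : ℂ))
        (fun i z => ((fderiv ℝ φ z (ex n i) : ℝ) : ℂ))
        (fun j i z => ((fderiv ℝ φ z (ey n j i) : ℝ) : ℂ)) z -
        formInt n v₂ E₂ f Dx Dy (fun z => ((φ z : ℝ) : ℂ))
        (fun i z => ((fderiv ℝ φ z (ex n i) : ℝ) : ℂ))
        (fun j i z => ((fderiv ℝ φ z (ey n j i) : ℝ) : ℂ)) z) = 0 := by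
      rw [integral_sub j1 j2, h1, h2, sub_zero]
    rw [← h3]
    refine integral_congr_ae (Eventually.of_forall fun z => ?_)
    simp only [e, formInt]
    ring
  have hloc : LocallyIntegrable (fun z => ((w z : ℝ) : ℂ) * f z) := by
    intro x
    let b : ContDiffBump x := ⟨1, 2, one_pos, one_lt_two⟩
    refine ⟨Metric.ball x 1, Metric.ball_mem_nhds x one_pos, ?_⟩
    have hb : Test (b : Xn n → ℝ) := ⟨b.contDiff, b.hasCompactSupport⟩
    refine ((key _ hb).1.integrableOn (s := Metric.ball x 1)).congr_fun ?_ measurableSet_ball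
    intro z hz
    have : b z = 1 := b.one_of_mem_closedBall (Metric.ball_subset_closedBall hz)
    simp only [this, one_smul]
  have hae := ae_eq_zero_of_integral_contDiff_smul_eq_zero hloc
    (fun φ h1 h2 => (key φ ⟨h1, h2⟩).2)
  filter_upwards [hae] with z hz hfz
  have h1 : ((w z : ℝ) : ℂ) = 0 := (mul_eq_zero.1 hz).resolve_right hfz
  have h2 : w z = 0 := by exact_mod_cast h1
  simp only [hw] at h2
  linarith

end Pool.Agent.H825.HK
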